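import Pool.Agent.Y655.NS.Count

/-!
The count on a short time interval (job 401 for helper8).
-/

open MeasureTheory Set Metric
open scoped ContDiff

namespace Pool.Agent.Y655.NS

open H459R3.NS W221.NS Pool.Agent.Y8

/-- Separated points in the cube. -/
theorem cube_card (n : ℕ) (S : Finset (ℝ × V)) (hS : ∀ z ∈ S, z.2 ∈ cube)
    (hsep : ∀ z ∈ S, ∀ w ∈ S, z ≠ w → rr n ≤ ‖z.2 - w.2‖) :
    (S.card : ℝ) ≤ (2 ^ n + 1) ^ 3 := by
  classical
  have hr := rr_pos500 n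
  have hri := rr_inv500 n
  have hbd : ∀ z ∈ S, ∀ i, 0 ≤ z.2 i ∧ z.2 i ≤ 1 := by
    intro z hz i
    have h := hS z hz
    unfold cube at h
    exact ⟨h.1 i, h.2 i⟩
  have h1 : S.card ≤ (Fintype.piFinset (fun _ : Fin 3 => Finset.range (2 ^ n + 1))).card := by
    refine Finset.card_le_card_of_injOn (fun z i => ⌊(2 : ℝ) ^ n * z.2 i⌋₊) ?_ ?_
    · intro z hz
      have hz' : z ∈ S := hz
      rw [Finset.mem_coe, Fintype.mem_piFinset]
      intro i
      rw [Finset.mem_range, Nat.lt_succ_iff]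
      obtain ⟨h2, h3⟩ := hbd z hz' i
      have h4 : (2 : ℝ) ^ n * z.2 i ≤ ((2 ^ n : ℕ) : ℝ) := by
        push_cast
        exact mul_le_of_le_one_right (by positivity) h3
      exact Nat.floor_le_of_le h4
    · intro z hz w hw hzw
      have hz' : z ∈ S := hz
      have hw' : w ∈ S := hw
      by_contra hne
      have h2 := hsep z hz' w hw' hne
      have h3 : ‖z.2 - w.2‖ < rr n := by
        rw [pi_norm_lt_iff hr]
        intro i
        have h4 : ⌊(2 : ℝ) ^ n * z.2 i⌋₊ = ⌊(2 : ℝ) ^ n * w.2 i⌋₊ := congrFun hzw i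
        have hz0 : 0 ≤ (2 : ℝ) ^ n * z.2 i := mul_nonneg (by positivity) (hbd z hz' i).1
        have hw0 : 0 ≤ (2 : ℝ) ^ n * w.2 i := mul_nonneg (by positivity) (hbd w hw' i).1
        have h5 := Nat.floor_le hz0
        have h6 := Nat.floor_le hw0
        have h7 := Nat.lt_floor_add_one ((2 : ℝ) ^ n * z.2 i)
        have h8 := Nat.lt_floor_add_one ((2 : ℝ) ^ n * w.2 i)
        rw [h4] at h5 h7
        have h9 : |(2 : ℝ) ^ n * z.2 i - (2 : ℝ) ^ n * w.2 i| < 1 := by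
          rw [abs_lt]
          constructor <;> linarith
        rw [← mul_sub, abs_mul, abs_of_pos (by positivity : (0 : ℝ) < 2 ^ n), ← hri,
          inv_mul_lt_iff₀ hr, mul_one] at h9
        rw [Pi.sub_apply, Real.norm_eq_abs]
        exact h9
      exact absurd h3 (not_lt.2 h2)
  rw [Fintype.card_piFinset, Finset.prod_const, Finset.card_range, Finset.card_univ,
    Fintype.card_fin] at h1
  exact_mod_cast h1

/-- The velocity bound at the scale `r`. -/
theorem B_le {M r : ℝ} (hM : 0 ≤ M) (hr : 0 < r) (hr1 : r ≤ 1) :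
    (M / √(r ^ 3) + 1) * r ^ 2 ≤ M + 1 := by
  have h1 : 0 < √(r ^ 3) := Real.sqrt_pos.2 (by positivity)
  have h2 : r ^ 2 ≤ √(r ^ 3) := by
    apply Real.le_sqrt_of_sq_le
    calc (r ^ 2) ^ 2 = r ^ 3 * r := by ring
      _ ≤ r ^ 3 * 1 := mul_le_mul_of_nonneg_left hr1 (by positivity)
      _ = r ^ 3 := mul_one _
  have h3 : M / √(r ^ 3) * r ^ 2 ≤ M := by
    rw [div_mul_eq_mul_div, div_le_iff₀ h1]
    exact mul_le_mul_of_nonneg_left h2 hM
  have h4 : r ^ 2 ≤ 1 := pow_le_one₀ hr.le hr1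
  linarith

theorem t_WINL : S_WFL → S_SLOW → S_ALTH → S_C12 → L_CFPL → L_WINL := by
  intro hW hSl hA hC hF E
  classical
  obtain ⟨K, hK, hW⟩ := hW
  obtain ⟨δ, c, κ₀, hδ, hc, hA⟩ := hA
  obtain ⟨n₀, hA⟩ := hA E
  obtain ⟨C₁, hC₁, h4⟩ := count4 (κ₀ := κ₀) hδ hc hC hF E
  obtain ⟨C₂, hC₂, hSl⟩ := hSl (K * |E| + 1)
  refine ⟨C₁ + C₂ + (2 ^ n₀ + 1) ^ 3 * 4 ^ n₀, by positivity, ?_⟩
  intro T D G u p hu n i α β hi hab hα hβ S hS hz
  have hD := turb_D hu
  have hr := rr_pos500 n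
  have hr1 : rr n ≤ 1 := pow_le_one₀ (by norm_num) (by norm_num)
  have hr2 : 0 < rr n ^ 2 := by positivity
  set W : ℝ := (2 : ℝ) ^ (-(20 / 3 : ℝ) * i) * (2 : ℝ) ^ ((5 / 3 : ℝ) * n) with hWdef
  have hW0 : 0 < W := by positivity
  have hDA : D ≤ |T| + D := by linarith [abs_nonneg T]
  have hA0 : 0 ≤ |T| + D := hD.trans hDA
  have h2n : (1 : ℝ) ≤ 2 ^ n := one_le_pow₀ (by norm_num)
  rcases S.eq_empty_or_nonempty with hSe | ⟨z₀, hz₀⟩
  · rw [hSe, Finset.card_empty, Nat.cast_zero]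
    positivity
  obtain ⟨⟨hz1, hz2⟩, -, -⟩ := hz z₀ hz₀
  have hβ0 : 0 < β := by linarith
  have hT : rr n ^ 2 < T := by linarith
  have hTabs : |T| = T := abs_of_pos (hr2.trans hT)
  have hrni : rr (n + i) ^ 2 < rr n ^ 2 := by
    have h5 : rr (n + i) < rr n :=
      pow_lt_pow_right_of_lt_one₀ (by norm_num) (by norm_num) (by omega)
    exact pow_lt_pow_left₀ h5 (rr_pos500 _).le two_ne_zero
  have hTD : 0 ≤ C₁ * (|T| + D) * (2 ^ n + W) := by positivity
  have hTD2 : 0 ≤ C₂ * (|T| + D) * (2 ^ n + W) := by positivity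
  have hTD3 : 0 ≤ (2 ^ n₀ + 1) ^ 3 * 4 ^ n₀ * (|T| + D) * (2 ^ n + W) := by positivity
  have hsplit : (C₁ + C₂ + (2 ^ n₀ + 1) ^ 3 * 4 ^ n₀) * (|T| + D) * (2 ^ n + W) =
      C₁ * (|T| + D) * (2 ^ n + W) + C₂ * (|T| + D) * (2 ^ n + W) +
        (2 ^ n₀ + 1) ^ 3 * 4 ^ n₀ * (|T| + D) * (2 ^ n + W) := by ring
  rw [hsplit]
  rcases lt_or_ge n n₀ with hn | hn
  · -- small `n`
    have h5 : (S.card : ℝ) ≤ (2 ^ n + 1) ^ 3 := by
      refine cube_card n S (fun z hzS => (hz z hzS).2.1) fun z hzS w hwS hne => ?_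
      rcases hS z hzS w hwS hne with h6 | h6
      · exfalso
        have h7 := (hz z hzS).1
        have h8 := (hz w hwS).1
        have h9 : |z.1 - w.1| ≤ β - α := by
          rw [abs_le]
          constructor
          · linarith [h7.1, h8.2]
          · linarith [h7.2, h8.1]
        linarith
      · exact h6
    have h6 : ((2 : ℝ) ^ n + 1) ^ 3 ≤ (2 ^ n₀ + 1) ^ 3 := by
      have : (2 : ℝ) ^ n ≤ 2 ^ n₀ := pow_le_pow_right₀ (by norm_num) hn.le
      gcongr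
    have h7 : 1 ≤ 4 ^ n₀ * (|T| + D) := by
      have h8 : rr n₀ ^ 2 ≤ rr n ^ 2 := by
        have : rr n₀ ≤ rr n := pow_le_pow_of_le_one (by norm_num) (by norm_num) hn.le
        exact pow_le_pow_left₀ (rr_pos500 _).le this 2
      have h9 : (4 : ℝ) ^ n₀ * rr n₀ ^ 2 = 1 := by
        unfold rr
        rw [← pow_mul, mul_comm n₀ 2, pow_mul, ← mul_pow]
        norm_num
      calc (1 : ℝ) = 4 ^ n₀ * rr n₀ ^ 2 := h9.symm
        _ ≤ 4 ^ n₀ * (|T| + D) := by
          refine mul_le_mul_of_nonneg_left ?_ (by positivity)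
          rw [hTabs]
          linarith
    have h8 : ((2 : ℝ) ^ n₀ + 1) ^ 3 ≤ (2 ^ n₀ + 1) ^ 3 * 4 ^ n₀ * (|T| + D) * (2 ^ n + W) := by
      have h9 : (1 : ℝ) ≤ 2 ^ n + W := by linarith
      have h10 : (1 : ℝ) ≤ 4 ^ n₀ * (|T| + D) * (2 ^ n + W) := by
        calc (1 : ℝ) = 1 * 1 := (one_mul 1).symm
          _ ≤ 4 ^ n₀ * (|T| + D) * (2 ^ n + W) := by
            exact mul_le_mul h7 h9 zero_le_one (by positivity)
      calc ((2 : ℝ) ^ n₀ + 1) ^ 3 = (2 ^ n₀ + 1) ^ 3 * 1 := (mul_one _).symm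
        _ ≤ (2 ^ n₀ + 1) ^ 3 * (4 ^ n₀ * (|T| + D) * (2 ^ n + W)) :=
          mul_le_mul_of_nonneg_left h10 (by positivity)
        _ = _ := by ring
    linarith
  · -- large `n`
    obtain ⟨C', hC', hW⟩ := hW E (rr n) hr hr1
    obtain ⟨X, Y, hX⟩ := hW T D G u p hu β ⟨hβ0, by linarith⟩
    set Sl : ℝ × V → Prop := fun z =>
      ∀ y, ‖X z.1 y - z.2‖ < rr n / 8 → ‖y - X z.1 y‖ ≤ rr n / 8 with hSldef
    have c1 : ((S.filter Sl).card : ℝ) ≤ C₂ * D * 2 ^ n := by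
      refine hSl T E D G u p hu n i α β hi hab hα hβ X Y _ C' ?_ ?_ hX (S.filter Sl)
        (sep_mono500 hS (Finset.filter_subset _ _)) ?_
      · positivity
      · exact B_le (by positivity) hr hr1
      · intro z hzS
        obtain ⟨h5, h6⟩ := Finset.mem_filter.1 hzS
        obtain ⟨h7, h8, h9⟩ := hz z h5
        exact ⟨h7, h8, h9, h6⟩
    have c2 : ((S.filter (fun z => ¬ Sl z)).card : ℝ) ≤ C₁ * (|T| + D) * (2 ^ n + W) := by
      refine h4 T D G u p hu n i _ (sep_mono500 hS (Finset.filter_subset _ _)) ?_ ?_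
      · intro z hzS
        obtain ⟨h5, -⟩ := Finset.mem_filter.1 hzS
        obtain ⟨h7, h8, -⟩ := hz z h5
        exact ⟨by linarith [h7.1], by linarith [h7.2], h8⟩
      · intro z hzS
        obtain ⟨h5, h6⟩ := Finset.mem_filter.1 hzS
        obtain ⟨h7, h8, -⟩ := hz z h5
        have h6' : ∃ y, ‖X z.1 y - z.2‖ < rr n / 8 ∧ rr n / 8 < ‖y - X z.1 y‖ := by
          by_contra hcon
          apply h6
          intro y hy
          by_contra h9
          exact hcon ⟨y, hy, not_le.1 h9⟩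
        obtain ⟨y, hy1, hy2⟩ := h6'
        have hb : |β - z.1| ≤ rr (n + i) ^ 2 := by
          rw [abs_of_nonneg (by linarith [h7.2])]
          linarith [h7.1]
        refine hA T D G u p hu n i hn z.1 z.2 (by linarith [h7.1]) (by linarith [h7.2])
          (fun t => X t y) (fun t => Y t y) _ C' (hX.path y) hy1.le
          ⟨β, hb, by linarith, ?_⟩
        change rr n / 8 < ‖X β y - X z.1 y‖
        rw [hX.lab]
        exact hy2
    have hcard : (S.card : ℝ) = (S.filter Sl).card + (S.filter (fun z => ¬ Sl z)).card := by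
      have := Finset.card_filter_add_card_filter_not (s := S) Sl
      exact_mod_cast this.symm
    have c3 : C₂ * D * 2 ^ n ≤ C₂ * (|T| + D) * (2 ^ n + W) := by
      have h5 : (2 : ℝ) ^ n ≤ 2 ^ n + W := by linarith
      gcongr
    rw [hcard]
    linarith

end Pool.Agent.Y655.NS
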