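import Pool.Agent.Y8.Stm7

/-!
The statements `S_CFPL`, `S_B2L`, `S_FINL`, `S_WINL` of `Pool.Agent.Y8.Stm7` with `T + D` replaced
by `|T| + D` (as they stand they fail for `T < 0` and the empty set of points).
-/

open MeasureTheory Set Metric
open scoped ContDiff NNReal

namespace Pool.Agent.Y655.NS

open H459R3.NS W221.NS Pool.Agent.Y8

/-- `S_CFP` with a bound which is linear in `|T| + D`. -/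
def L_CFPL : Prop := ∀ (E δ c : ℝ) (κ₀ : ℕ), 0 < δ → 0 < c → ∃ C : ℝ, 0 < C ∧
  ∀ (T D : ℝ) (G : Set ℝ) (u : ℝ → V → V) (p : ℝ → V → ℝ), Turb 1 T E D G u p →
    ∀ (n j : ℕ) (S : Finset (ℝ × V)), Sep (rr n) S →
      (∀ z ∈ S, 0 ≤ z.1 - rr n ^ 2 ∧ z.1 + rr n ^ 2 ≤ T ∧ z.2 ∈ cube) →
      ((∀ z ∈ S, δ * (4 ^ j / rr n) ≤ ∫ t in II n z.1, NF n (2 * j + κ₀) (u t) z.2) ∨
        ∀ z ∈ S, c * (rr n ^ 2 * (4 ^ j / rr n)) ≤ ∫ t in II n z.1, ‖mo (rr n) (u t) z.2‖) →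
        (S.card : ℝ) ≤ C * (|T| + D) *
          ((2 : ℝ) ^ (-(20 / 3 : ℝ) * j) * (2 : ℝ) ^ ((5 / 3 : ℝ) * n))

/-- `S_B2` with a bound which is linear in `|T| + D`. -/
def L_B2L : Prop := ∀ E : ℝ, ∃ (C : ℝ) (n₀ : ℕ), 0 < C ∧
  ∀ (T D : ℝ) (G : Set ℝ) (u : ℝ → V → V) (p : ℝ → V → ℝ), Turb 1 T E D G u p →
    ∀ (n j : ℕ), n₀ ≤ n → ∀ S : Finset (ℝ × V),
      Sep (rr n) S → (∀ z ∈ S, 0 < z.1 - rr n ^ 2 ∧ z.1 + rr n ^ 2 < T ∧ z.2 ∈ cube ∧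
        ∃ (X Y : ℝ → V) (B C' : ℝ), FPath T (rr (n + j)) B C' G u p X Y ∧
          X z.1 = z.2 ∧ ∃ t, |t - z.1| < rr (n + j) ^ 2 ∧ rr n < ‖X t - z.2‖) →
        (S.card : ℝ) ≤ C * (|T| + D) *
          (2 ^ n + (2 : ℝ) ^ (-(20 / 3 : ℝ) * j) * (2 : ℝ) ^ ((5 / 3 : ℝ) * n))

/-- The count on the whole time interval, with a bound which is linear in `|T| + D`. -/
def L_FINL : Prop := ∀ E : ℝ, ∃ C : ℝ, 0 < C ∧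
  ∀ (T D : ℝ) (G : Set ℝ) (u : ℝ → V → V) (p : ℝ → V → ℝ), Turb 1 T E D G u p →
    ∀ r : ℝ, 0 < r → r ≤ 1 → ∀ S : Finset (ℝ × V), Sep r S →
      (∀ z ∈ S, 0 < z.1 - r ^ 2 ∧ z.1 + r ^ 2 < T ∧ z.2 ∈ cube ∧ SingPt G u z.1 z.2) →
        (S.card : ℝ) ≤ C * (|T| + D) * r ^ (-(25 / 23) : ℝ)

/-- The count on a short time interval. -/
def L_WINL : Prop := ∀ E : ℝ, ∃ C : ℝ, 0 < C ∧
  ∀ (T D : ℝ) (G : Set ℝ) (u : ℝ → V → V) (p : ℝ → V → ℝ), Turb 1 T E D G u p →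
    ∀ (n i : ℕ) (α β : ℝ), 3 ≤ i → β - α ≤ rr (n + i) ^ 2 → rr n ^ 2 < α → β + rr n ^ 2 < T →
      ∀ S : Finset (ℝ × V), Sep (rr n) S →
        (∀ z ∈ S, z.1 ∈ Icc α β ∧ z.2 ∈ cube ∧ SingPt G u z.1 z.2) →
          (S.card : ℝ) ≤ C * (|T| + D) *
            (2 ^ n + (2 : ℝ) ^ (-(20 / 3 : ℝ) * i) * (2 : ℝ) ^ ((5 / 3 : ℝ) * n))

end Pool.Agent.Y655.NS
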