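import Pool.Agent.Y494.NS.CFP
import Pool.Agent.Y655.NS.Stm

/-!
Linear version of `S_CFP` (job 398 for helper8; the proof is the one of `t_CFP` in
`Pool.Agent.Y494.NS.CFP` with the dependence of the constant on `T` and `D` made explicit).
-/

open MeasureTheory Set Metric Filter Topology
open scoped ContDiff

namespace Pool.Agent.Y655.NS

open H459R3.NS W221.NS Pool.Agent.Y8 Pool.Agent.Y494.NS.Sumb Pool.Agent.Y494.NS.Cfp

/-- The total enstrophy is not negative. -/
theorem turb_D {ν T E D : ℝ} {G : Set ℝ} {u : ℝ → V → V} {p : ℝ → V → ℝ}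
    (h : Turb ν T E D G u p) : 0 ≤ D :=
  le_trans (integral_nonneg fun t => enst_nn (u t)) h.enst_le

/-- The packing bound for `hh`, linear in the length of the interval and the dissipation. -/
theorem hh_packL (hO : S_OVER) : ∀ E : ℝ, ∃ L : ℝ, 0 < L ∧
    ∀ (T D : ℝ) (G : Set ℝ) (u : ℝ → V → V) (p : ℝ → V → ℝ), Turb 1 T E D G u p →
    ∀ (n : ℕ) (S : Finset (ℝ × V)), Sep (rr n) S →
    (∀ z ∈ S, 0 ≤ z.1 - rr n ^ 2 ∧ z.1 + rr n ^ 2 ≤ T ∧ z.2 ∈ cube) → ∀ ρ : ℝ, rr n ≤ ρ → ρ ≤ 2 →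
      ∑ z ∈ S, ∫ t in II n z.1, ∫ x in ball z.2 ρ, hh E (u t) x ≤
        L * (|T| + D) * (ρ / rr n) ^ 3 := by
  obtain ⟨C₀, hC₀, hO⟩ := hO
  obtain ⟨C, hC, hC'⟩ := hh_cube
  intro E
  refine ⟨C₀ * ((E ^ 2 + C) * (1 + E ^ 2)), by positivity,
    fun T D G u p h n S hsep hS ρ hρ hρ2 => ?_⟩
  have h1 := pack' (F := fun t x => hh E (u t) x) hC₀.le hO h hsep hS hρ hρ2
    (fun t ht => hh_cont E (h.spv ht).1) (fun t ht => hh_per E (h.spv ht).2)
    (fun t _ x => hh_nn E _ x) (fun a => hh_G h ρ a) ((sw_int h).const_mul (E ^ 2 + C))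
    (fun t ht => hC' E (u t) (h.spv ht) (h.energy_le t ht))
  rw [integral_const_mul] at h1
  have hr := rr_pos n
  have hρ0 : 0 < ρ := hr.trans_le hρ
  have hD := turb_D h
  refine h1.trans ?_
  have h2 : ∫ t in G, sw E (u t) ≤ (1 + E ^ 2) * (|T| + D) := by
    refine (sw_le h).trans ?_
    nlinarith [mul_nonneg (sq_nonneg E) hD]
  calc C₀ * (ρ / rr n) ^ 3 * ((E ^ 2 + C) * ∫ t in G, sw E (u t))
      ≤ C₀ * (ρ / rr n) ^ 3 * ((E ^ 2 + C) * ((1 + E ^ 2) * (|T| + D))) := by gcongr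
    _ = _ := by ring

theorem t_CFPL : S_OVER → L_CFPL := by
  intro hO E δ c κ₀ hδ hc
  obtain ⟨L₀, hL₀, hpk⟩ := hh_packL hO E
  obtain ⟨K, hK, hmo⟩ := mo_trunc
  have hK0 : 0 < K := by linarith
  -- cube roots
  obtain ⟨q, hq, hq3⟩ : ∃ q : ℝ, 0 < q ∧ q ^ 3 = δ * 2 ^ κ₀ / 64 := by
    refine ⟨(δ * 2 ^ κ₀ / 64) ^ (1 / 3 : ℝ), by positivity, ?_⟩
    rw [← Real.rpow_natCast, ← Real.rpow_mul (by positivity)]
    norm_num
  obtain ⟨q', hq', hq3'⟩ : ∃ q : ℝ, 0 < q ∧ q ^ 3 = c / (32 * K) := by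
    refine ⟨(c / (32 * K)) ^ (1 / 3 : ℝ), by positivity, ?_⟩
    rw [← Real.rpow_natCast, ← Real.rpow_mul (by positivity)]
    norm_num
  refine ⟨4 * L₀ / (δ * 2 ^ κ₀ * q ^ 2) + 2 * K * L₀ / (c * q' ^ 7), by positivity,
    fun T D G u p h n j S hsep hS hcase => ?_⟩
  have hD := turb_D h
  rcases S.eq_empty_or_nonempty with hSe | ⟨z₀, hz₀⟩
  · rw [hSe, Finset.card_empty, Nat.cast_zero]
    positivity
  have hT0 : 0 < T := by
    have h1 := hS z₀ hz₀
    have h2 := rr_pos n
    nlinarith [h1.1, h1.2.1, sq_pos_of_pos h2]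
  have hTD : 0 < |T| + D := by
    have := abs_pos.2 hT0.ne'
    linarith
  set L : ℝ := L₀ * (|T| + D) with hLdef
  have hL : 0 < L := by positivity
  set C1 : ℝ := 4 * L / (δ * 2 ^ κ₀ * q ^ 2) with hC1
  set C2 : ℝ := 2 * K * L / (c * q' ^ 7) with hC2
  have hCC : (4 * L₀ / (δ * 2 ^ κ₀ * q ^ 2) + 2 * K * L₀ / (c * q' ^ 7)) * (|T| + D) = C1 + C2 := by
    rw [hC1, hC2, hLdef]
    ring
  rw [hCC]
  obtain ⟨w, hw, hw3, hw10⟩ := pw n j
  have hr := rr_pos n
  have hr1 := rr_le n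
  have hpk' : ∀ ρ : ℝ, rr n ≤ ρ → ρ ≤ 2 →
      ∑ z ∈ S, ∫ t in II n z.1, ∫ x in ball z.2 ρ, hh E (u t) x ≤ L * (ρ / rr n) ^ 3 :=
    hpk T D G u p h n S hsep hS
  rw [← hw10]
  rw [← hw3] at hcase
  have hP : 0 < (w ^ 10)⁻¹ * (rr n ^ 5)⁻¹ := by positivity
  rcases hcase with hF | hF
  · -- much energy far away
    have goal : (S.card : ℝ) ≤ C1 * ((w ^ 10)⁻¹ * (rr n ^ 5)⁻¹) := by
      set m : ℝ := q * w ^ 2 with hm
      have hm0 : 0 < m := by positivity
      set M : ℕ := 2 * j + κ₀ with hM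
      set A := (Finset.range n).filter (fun k => M ≤ k) with hA
      have hρ : ∀ k ∈ A, rr n ≤ 2 ^ k * rr n ∧ 2 ^ k * rr n ≤ 2 := by
        intro k hk
        have hk' : k < n := Finset.mem_range.1 (Finset.mem_filter.1 hk).1
        constructor
        · have : (1 : ℝ) ≤ 2 ^ k := one_le_pow₀ (by norm_num)
          nlinarith
        · have : (2 : ℝ) ^ k * rr n ≤ 1 := by
            unfold rr
            rw [one_div, inv_pow, ← div_eq_mul_inv, div_le_one (by positivity)]
            exact pow_le_pow_right₀ (by norm_num) hk'.le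
          linarith
      have hR : (2 : ℝ) ^ M * rr n = 2 ^ κ₀ * w ^ 3 * rr n ^ 2 := by
        rw [hM, hw3, pow_add, pow_mul]
        field_simp
        norm_num
      have e1 : ∀ z ∈ S, ∫ t in II n z.1, NF n M (u t) z.2 ≤
          δ * w ^ 3 / 2 + (m ^ 2)⁻¹ * ∑ k ∈ A, ((2 ^ k * rr n) ^ 4)⁻¹ *
            ∫ t in II n z.1, ∫ x in ball z.2 (2 ^ k * rr n), hh E (u t) x := by
        intro z hz
        have hzi : ∀ k, IntegrableOn (fun t => ∫ x in ball z.2 (2 ^ k * rr n), hh E (u t) x) (II n z.1) :=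
          fun k => II_int h (hS z hz).1 (hS z hz).2.1 (hh_G h _ _)
        have hsi : IntegrableOn (fun t => ∑ k ∈ A, ((2 ^ k * rr n) ^ 4)⁻¹ *
            ∫ x in ball z.2 (2 ^ k * rr n), hh E (u t) x) (II n z.1) :=
          integrable_finsetSum _ fun k _ => (hzi k).const_mul _
        have hci : IntegrableOn (fun _ : ℝ => 16 * m ^ 3 / (2 ^ M * rr n)) (II n z.1) :=
          integrableOn_const (by unfold II; simp)
        have b1 : ∫ t in II n z.1, NF n M (u t) z.2 ≤ ∫ t in II n z.1, (16 * m ^ 3 / (2 ^ M * rr n) +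
            (m ^ 2)⁻¹ * ∑ k ∈ A, ((2 ^ k * rr n) ^ 4)⁻¹ *
              ∫ x in ball z.2 (2 ^ k * rr n), hh E (u t) x) := by
          refine integral_mono_of_nonneg (ae_of_all _ fun t => ?_) (hci.add (hsi.const_mul _)) ?_
          · unfold NF
            refine Finset.sum_nonneg fun k _ => mul_nonneg (by positivity) ?_
            exact integral_nonneg fun x => nsq_nn _ x
          · filter_upwards [II_mem h (hS z hz).1 (hS z hz).2.1] with t ht
            unfold NF
            calc ∑ k ∈ A, ((2 ^ k * rr n) ^ 4)⁻¹ * A2 z.2 (2 ^ k * rr n) (u t)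
                ≤ ∑ k ∈ A, ((2 ^ k * rr n) ^ 4)⁻¹ * ((2 * (2 ^ k * rr n)) ^ 3 * m ^ 3 +
                  (m ^ 2)⁻¹ * ∫ x in ball z.2 (2 ^ k * rr n), hh E (u t) x) := by
                  refine Finset.sum_le_sum fun k _ => mul_le_mul_of_nonneg_left ?_ (by positivity)
                  exact A2_trunc E (h.spv ht).1 z.2 (by positivity) hm0
              _ = 8 * m ^ 3 * ∑ k ∈ A, (2 ^ k * rr n)⁻¹ + (m ^ 2)⁻¹ * ∑ k ∈ A,
                  ((2 ^ k * rr n) ^ 4)⁻¹ * ∫ x in ball z.2 (2 ^ k * rr n), hh E (u t) x := by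
                  rw [Finset.mul_sum, Finset.mul_sum, ← Finset.sum_add_distrib]
                  refine Finset.sum_congr rfl fun k _ => ?_
                  rw [mul_add]
                  congr 1
                  · have : (0 : ℝ) < 2 ^ k * rr n := by positivity
                    field_simp
                    norm_num
                  · ring
              _ ≤ 8 * m ^ 3 * (2 * (2 ^ M * rr n)⁻¹) + (m ^ 2)⁻¹ * ∑ k ∈ A,
                  ((2 ^ k * rr n) ^ 4)⁻¹ * ∫ x in ball z.2 (2 ^ k * rr n), hh E (u t) x := by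
                  have := gsum n M (rr n) hr
                  gcongr
              _ = _ := by ring
        refine b1.trans ?_
        rw [integral_add hci (hsi.const_mul _), integral_const_mul,
          integral_finsetSum _ fun k _ => (hzi k).const_mul _, setIntegral_const, II_vol, smul_eq_mul]
        simp only [integral_const_mul]
        refine add_le_add (le_of_eq ?_) le_rfl
        rw [hR, hm, mul_pow, hq3]
        field_simp
        ring
      have e2 : (S.card : ℝ) * (δ * w ^ 3 / 2) ≤ (m ^ 2)⁻¹ * (L * (rr n ^ 3)⁻¹ * (2 * (2 ^ M * rr n)⁻¹)) := by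
        have f1 : (S.card : ℝ) * (δ * w ^ 3 / 2) ≤ ∑ z ∈ S, (m ^ 2)⁻¹ * ∑ k ∈ A, ((2 ^ k * rr n) ^ 4)⁻¹ *
            ∫ t in II n z.1, ∫ x in ball z.2 (2 ^ k * rr n), hh E (u t) x := by
          rw [← nsmul_eq_mul, ← Finset.sum_const]
          refine Finset.sum_le_sum fun z hz => ?_
          have := e1 z hz
          have := hF z hz
          linarith
        refine f1.trans ?_
        rw [← Finset.mul_sum]
        refine mul_le_mul_of_nonneg_left ?_ (by positivity)
        rw [Finset.sum_comm]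
        calc ∑ k ∈ A, ∑ z ∈ S, ((2 ^ k * rr n) ^ 4)⁻¹ *
              ∫ t in II n z.1, ∫ x in ball z.2 (2 ^ k * rr n), hh E (u t) x
            ≤ ∑ k ∈ A, L * (rr n ^ 3)⁻¹ * (2 ^ k * rr n)⁻¹ := by
              refine Finset.sum_le_sum fun k hk => ?_
              rw [← Finset.mul_sum]
              have g1 := hpk' (2 ^ k * rr n) (hρ k hk).1 (hρ k hk).2
              refine (mul_le_mul_of_nonneg_left g1 (by positivity)).trans (le_of_eq ?_)
              have : (0 : ℝ) < 2 ^ k := by positivity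
              field_simp
          _ = L * (rr n ^ 3)⁻¹ * ∑ k ∈ A, (2 ^ k * rr n)⁻¹ := by rw [Finset.mul_sum]
          _ ≤ _ := by
              have := gsum n M (rr n) hr
              gcongr
      have e3 : (m ^ 2)⁻¹ * (L * (rr n ^ 3)⁻¹ * (2 * (2 ^ M * rr n)⁻¹)) =
          C1 * ((w ^ 10)⁻¹ * (rr n ^ 5)⁻¹) * (δ * w ^ 3 / 2) := by
        rw [hR, hm, hC1]
        field_simp
        ring
      rw [e3] at e2
      exact le_of_mul_le_mul_right e2 (by positivity)
    refine goal.trans (mul_le_mul_of_nonneg_right ?_ hP.le)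
    have : 0 < C2 := by positivity
    linarith
  · -- fast mean velocity
    have goal : (S.card : ℝ) ≤ C2 * ((w ^ 10)⁻¹ * (rr n ^ 5)⁻¹) := by
      set l : ℝ := q' * w with hl
      have hl0 : 0 < l := by positivity
      have e1 : ∀ z ∈ S, ∫ t in II n z.1, ‖mo (rr n) (u t) z.2‖ ≤ c * (rr n ^ 2 * w ^ 3) / 2 +
          K * ((l ^ 7)⁻¹ * (rr n ^ 3)⁻¹) * ∫ t in II n z.1, ∫ x in ball z.2 (rr n), hh E (u t) x := by
        intro z hz
        have hzi : IntegrableOn (fun t => ∫ x in ball z.2 (rr n), hh E (u t) x) (II n z.1) :=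
          II_int h (hS z hz).1 (hS z hz).2.1 (hh_G h _ _)
        have hci : IntegrableOn (fun _ : ℝ => K * (8 * l ^ 3)) (II n z.1) :=
          integrableOn_const (by unfold II; simp)
        have b1 : ∫ t in II n z.1, ‖mo (rr n) (u t) z.2‖ ≤ ∫ t in II n z.1, (K * (8 * l ^ 3) +
            K * ((l ^ 7)⁻¹ * (rr n ^ 3)⁻¹) * ∫ x in ball z.2 (rr n), hh E (u t) x) := by
          refine integral_mono_of_nonneg (ae_of_all _ fun t => norm_nonneg _)
            (hci.add (hzi.const_mul _)) ?_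
          filter_upwards [II_mem h (hS z hz).1 (hS z hz).2.1] with t ht
          refine (hmo E (u t) (h.spv ht).1 z.2 (rr n) l hr hl0).trans (le_of_eq ?_)
          ring
        refine b1.trans ?_
        rw [integral_add hci (hzi.const_mul _), setIntegral_const, II_vol, smul_eq_mul,
          integral_const_mul]
        refine add_le_add (le_of_eq ?_) le_rfl
        rw [hl, mul_pow, hq3']
        field_simp
        ring
      have e2 : (S.card : ℝ) * (c * (rr n ^ 2 * w ^ 3) / 2) ≤ K * ((l ^ 7)⁻¹ * (rr n ^ 3)⁻¹) * L := by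
        have f1 : (S.card : ℝ) * (c * (rr n ^ 2 * w ^ 3) / 2) ≤ ∑ z ∈ S,
            K * ((l ^ 7)⁻¹ * (rr n ^ 3)⁻¹) * ∫ t in II n z.1, ∫ x in ball z.2 (rr n), hh E (u t) x := by
          rw [← nsmul_eq_mul, ← Finset.sum_const]
          refine Finset.sum_le_sum fun z hz => ?_
          have := e1 z hz
          have := hF z hz
          linarith
        refine f1.trans ?_
        rw [← Finset.mul_sum]
        refine mul_le_mul_of_nonneg_left ?_ (by positivity)
        have g1 := hpk' (rr n) le_rfl (by linarith)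
        rwa [div_self hr.ne', one_pow, mul_one] at g1
      have e3 : K * ((l ^ 7)⁻¹ * (rr n ^ 3)⁻¹) * L =
          C2 * ((w ^ 10)⁻¹ * (rr n ^ 5)⁻¹) * (c * (rr n ^ 2 * w ^ 3) / 2) := by
        rw [hl, hC2]
        field_simp
      rw [e3] at e2
      exact le_of_mul_le_mul_right e2 (by positivity)
    refine goal.trans (mul_le_mul_of_nonneg_right ?_ hP.le)
    have : 0 < C1 := by positivity
    linarith

end Pool.Agent.Y655.NS
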