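import Pool.Agent.Y500.NS8.B2
import Pool.Agent.Y655.NS.CFPL

/-!
Linear versions of `S_B2`, `S_FIN1` and the count on short time intervals
(jobs 398 and 401 for helper8; `t_B2L` and `t_FINL` follow `t_B2` and `t_FIN1` of
`Pool.Agent.Y500.NS8.B2`).
-/

open MeasureTheory Set Metric
open scoped ContDiff

namespace Pool.Agent.Y655.NS

open H459R3.NS W221.NS Pool.Agent.Y8

/-- The four classes of points which are carried away. -/
theorem count4 {δ c : ℝ} {κ₀ : ℕ} (hδ : 0 < δ) (hc : 0 < c) (hC : S_C12) (hF : L_CFPL) (E : ℝ) :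
    ∃ C : ℝ, 0 < C ∧
    ∀ (T D : ℝ) (G : Set ℝ) (u : ℝ → V → V) (p : ℝ → V → ℝ), Turb 1 T E D G u p →
    ∀ (n j : ℕ) (S : Finset (ℝ × V)), Sep (rr n) S →
      (∀ z ∈ S, 0 ≤ z.1 - rr n ^ 2 ∧ z.1 + rr n ^ 2 ≤ T ∧ z.2 ∈ cube) →
      (∀ z ∈ S, δ / rr n ≤ ∫ t in II n z.1, NN2 n (u t) z.2 ∨
          δ * (4 ^ j / rr n) ≤ ∫ t in II n z.1, NN1 n (2 * j + κ₀) (u t) z.2 ∨
          δ * (4 ^ j / rr n) ≤ ∫ t in II n z.1, NF n (2 * j + κ₀) (u t) z.2 ∨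
          c * (rr n ^ 2 * (4 ^ j / rr n)) ≤ ∫ t in II n z.1, ‖mo (rr n) (u t) z.2‖) →
        (S.card : ℝ) ≤ C * (|T| + D) *
          (2 ^ n + (2 : ℝ) ^ (-(20 / 3 : ℝ) * j) * (2 : ℝ) ^ ((5 / 3 : ℝ) * n)) := by
  obtain ⟨C₁, hC₁, h12⟩ := hC
  obtain ⟨C₂, hC₂, hF⟩ := hF E δ c κ₀ hδ hc
  refine ⟨C₁ / δ + C₁ * 2 ^ κ₀ / δ + 2 * C₂, by positivity, ?_⟩
  intro T D G u p hu n j S hS hz h4
  classical
  have hr := rr_pos500 n
  have hri := rr_inv500 n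
  have hD := turb_D hu
  set W : ℝ := (2 : ℝ) ^ (-(20 / 3 : ℝ) * j) * (2 : ℝ) ^ ((5 / 3 : ℝ) * n) with hW
  have hW0 : 0 < W := by positivity
  set P2 : ℝ × V → Prop := fun z => δ / rr n ≤ ∫ t in II n z.1, NN2 n (u t) z.2
  set P1 : ℝ × V → Prop := fun z =>
    δ * (4 ^ j / rr n) ≤ ∫ t in II n z.1, NN1 n (2 * j + κ₀) (u t) z.2
  set PF : ℝ × V → Prop := fun z =>
    δ * (4 ^ j / rr n) ≤ ∫ t in II n z.1, NF n (2 * j + κ₀) (u t) z.2
  set PM : ℝ × V → Prop := fun z =>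
    c * (rr n ^ 2 * (4 ^ j / rr n)) ≤ ∫ t in II n z.1, ‖mo (rr n) (u t) z.2‖
  have hcov : S ⊆ (S.filter P2 ∪ S.filter P1) ∪ (S.filter PF ∪ S.filter PM) := by
    intro z hzS
    simp only [Finset.mem_union, Finset.mem_filter]
    rcases h4 z hzS with h4 | h4 | h4 | h4
    · exact Or.inl (Or.inl ⟨hzS, h4⟩)
    · exact Or.inl (Or.inr ⟨hzS, h4⟩)
    · exact Or.inr (Or.inl ⟨hzS, h4⟩)
    · exact Or.inr (Or.inr ⟨hzS, h4⟩)
  have hbox : ∀ P : ℝ × V → Prop, ∀ z ∈ S.filter P,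
      0 ≤ z.1 - rr n ^ 2 ∧ z.1 + rr n ^ 2 ≤ T ∧ z.2 ∈ cube :=
    fun P z hzS => hz z (Finset.mem_filter.1 hzS).1
  have hsep : ∀ P : ℝ × V → Prop, Sep (rr n) (S.filter P) := fun P =>
    sep_mono500 hS (Finset.filter_subset _ _)
  have hDA : D ≤ |T| + D := by linarith [abs_nonneg T]
  have hA : 0 ≤ |T| + D := hD.trans hDA
  set A : ℝ := |T| + D with hAdef
  -- class 2
  have c2 : ((S.filter P2).card : ℝ) ≤ C₁ * A / δ * 2 ^ n := by
    have h1 := (h12 T E D G u p hu n (S.filter P2) (hsep P2) (hbox P2)).1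
    have h2 := markov500 (a := δ / rr n) (by positivity)
      (fun z hzS => (Finset.mem_filter.1 hzS).2) h1
    refine h2.trans ?_
    rw [← hri]
    have : C₁ * D / rr n ^ 2 / (δ / rr n) = C₁ * D / δ * (rr n)⁻¹ := by
      field_simp
    rw [this]
    gcongr
  -- class 1
  have c1 : ((S.filter P1).card : ℝ) ≤ C₁ * 2 ^ κ₀ * A / δ * 2 ^ n := by
    have h1 := (h12 T E D G u p hu n (S.filter P1) (hsep P1) (hbox P1)).2 (2 * j + κ₀)
    have h2 := markov500 (a := δ * (4 ^ j / rr n)) (by positivity)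
      (fun z hzS => (Finset.mem_filter.1 hzS).2) h1
    refine h2.trans ?_
    rw [← hri]
    have h4 : (2 : ℝ) ^ (2 * j + κ₀) = 4 ^ j * 2 ^ κ₀ := by
      rw [pow_add, pow_mul]; norm_num
    have : C₁ * 2 ^ (2 * j + κ₀) * D / rr n ^ 2 / (δ * (4 ^ j / rr n))
        = C₁ * 2 ^ κ₀ * D / δ * (rr n)⁻¹ := by
      rw [h4]
      field_simp
    rw [this]
    gcongr
  -- classes 3 and 4
  have cF : ((S.filter PF).card : ℝ) ≤ C₂ * A * W :=
    hF T D G u p hu n j (S.filter PF) (hsep PF) (hbox PF)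
      (Or.inl fun z hzS => (Finset.mem_filter.1 hzS).2)
  have cM : ((S.filter PM).card : ℝ) ≤ C₂ * A * W :=
    hF T D G u p hu n j (S.filter PM) (hsep PM) (hbox PM)
      (Or.inr fun z hzS => (Finset.mem_filter.1 hzS).2)
  have hcard : (S.card : ℝ) ≤ (S.filter P2).card + (S.filter P1).card
      + ((S.filter PF).card + (S.filter PM).card) := by
    have h1 := Finset.card_le_card hcov
    have h2 := Finset.card_union_le (S.filter P2 ∪ S.filter P1) (S.filter PF ∪ S.filter PM)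
    have h3 := Finset.card_union_le (S.filter P2) (S.filter P1)
    have h4 := Finset.card_union_le (S.filter PF) (S.filter PM)
    have h5 : S.card ≤ (S.filter P2).card + (S.filter P1).card
      + ((S.filter PF).card + (S.filter PM).card) := by omega
    exact_mod_cast h5
  refine hcard.trans ?_
  have h2n : (0 : ℝ) < 2 ^ n := by positivity
  have ha : 0 ≤ C₁ / δ * A := by positivity
  have hb : 0 ≤ C₁ * 2 ^ κ₀ / δ * A := by positivity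
  have hc : 0 ≤ C₂ * A := by positivity
  have e1 : C₁ * A / δ * 2 ^ n = C₁ / δ * A * 2 ^ n := by ring
  have e2 : C₁ * 2 ^ κ₀ * A / δ * 2 ^ n = C₁ * 2 ^ κ₀ / δ * A * 2 ^ n := by ring
  rw [e1] at c2
  rw [e2] at c1
  have e3 : (C₁ / δ + C₁ * 2 ^ κ₀ / δ + 2 * C₂) * A * (2 ^ n + W) =
      C₁ / δ * A * 2 ^ n + C₁ * 2 ^ κ₀ / δ * A * 2 ^ n + 2 * (C₂ * A * W)
        + (C₁ / δ * A * W + C₁ * 2 ^ κ₀ / δ * A * W + 2 * (C₂ * A * 2 ^ n)) := by ring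
  rw [e3]
  have e4 : 0 ≤ C₁ / δ * A * W + C₁ * 2 ^ κ₀ / δ * A * W + 2 * (C₂ * A * 2 ^ n) := by positivity
  linarith

theorem t_B2L : S_C12 → L_CFPL → S_ALT → L_B2L := by
  intro hC hF hA E
  obtain ⟨δ, c, κ₀, hδ, hc, hA⟩ := hA
  obtain ⟨n₀, hA⟩ := hA E
  obtain ⟨C, hC0, h4⟩ := count4 (κ₀ := κ₀) hδ hc hC hF E
  refine ⟨C, n₀, hC0, ?_⟩
  intro T D G u p hu n j hn S hS hz
  refine h4 T D G u p hu n j S hS (fun z hzS => ?_) fun z hzS => ?_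
  · obtain ⟨h1, h2, h3, -⟩ := hz z hzS
    exact ⟨h1.le, h2.le, h3⟩
  · obtain ⟨h1, h2, h3, X, Y, B, C', hX, hX0, hX1⟩ := hz z hzS
    exact hA T D G u p hu n j hn z.1 z.2 h1 h2 X Y B C' hX hX0 hX1

theorem t_FINL : S_WPATH → S_B1 → L_B2L → L_FINL := by
  intro hP h1 h2 E
  obtain ⟨K, hK, hP⟩ := hP
  obtain ⟨C₁, hC₁, h1⟩ := h1
  obtain ⟨C₂, n₀, hC₂, h2⟩ := h2 E
  set N₁ : ℕ := max n₀ 4 with hN₁
  set A : ℝ := 14 * C₁ + C₂ * (1 + (2 : ℝ) ^ (20 / 3 : ℝ)) with hA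
  have hA0 : 0 < A := by positivity
  -- the main bound
  have main : ∀ (T D : ℝ) (G : Set ℝ) (u : ℝ → V → V) (p : ℝ → V → ℝ), Turb 1 T E D G u p →
      ∀ n : ℕ, N₁ ≤ n → ∀ S : Finset (ℝ × V), Sep (rr n) S →
      (∀ z ∈ S, 0 < z.1 - rr n ^ 2 ∧ z.1 + rr n ^ 2 < T ∧ z.2 ∈ cube ∧ SingPt G u z.1 z.2) →
        (S.card : ℝ) ≤ A * (|T| + D) * (2 : ℝ) ^ ((25 / 23 : ℝ) * n) := by
    intro T D G u p hu n hn S hS hz
    classical
    have hn0 : n₀ ≤ n := (le_max_left _ _).trans hn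
    have hn4 : 4 ≤ n := (le_max_right _ _).trans hn
    have hD := turb_D hu
    set J : ℕ := 2 * n / 23 with hJ
    have hrJ : 0 < rr (n + J) := rr_pos500 _
    have hrJ1 : rr (n + J) ≤ 1 := pow_le_one₀ (by norm_num) (by norm_num)
    obtain ⟨Cp, hCp, hP⟩ := hP E (rr (n + J)) hrJ hrJ1
    set St : ℝ × V → Prop := fun z => ∃ (X Y : ℝ → V) (B C' : ℝ),
      FPath T (rr (n + J)) B C' G u p X Y ∧ X z.1 = z.2 ∧
        ∀ t, |t - z.1| < rr (n + J) ^ 2 → ‖X t - z.2‖ ≤ rr n with hSt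
    have c1 : ((S.filter St).card : ℝ) ≤ C₁ * D * (2 ^ (n + J) * (1 + (n + J) / 8 ^ J)) := by
      refine h1 T E D G u p hu n J hn4 (S.filter St) (sep_mono500 hS (Finset.filter_subset _ _)) ?_
      intro z hzS
      obtain ⟨hz1, hz2⟩ := Finset.mem_filter.1 hzS
      obtain ⟨h6, h7, h4, h5⟩ := hz z hz1
      exact ⟨h6, h7, h4, h5, hz2⟩
    have c2 : ((S.filter (fun z => ¬ St z)).card : ℝ)
        ≤ C₂ * (|T| + D) *
          (2 ^ n + (2 : ℝ) ^ (-(20 / 3 : ℝ) * J) * (2 : ℝ) ^ ((5 / 3 : ℝ) * n)) := by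
      refine h2 T D G u p hu n J hn0 _ (sep_mono500 hS (Finset.filter_subset _ _)) ?_
      intro z hzS
      obtain ⟨hz1, hz2⟩ := Finset.mem_filter.1 hzS
      obtain ⟨h6, h7, h4, h5⟩ := hz z hz1
      have hr2 : 0 < rr n ^ 2 := pow_pos (rr_pos500 n) 2
      obtain ⟨X, Y, hX0, hX⟩ := hP T D G u p hu z.1 ⟨by linarith, by linarith⟩ z.2
      refine ⟨h6, h7, h4, X, Y, _, _, hX, hX0, ?_⟩
      by_contra hcon
      push Not at hcon
      exact hz2 ⟨X, Y, _, _, hX, hX0, hcon⟩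
    have hcard : (S.card : ℝ) = (S.filter St).card + (S.filter (fun z => ¬ St z)).card := by
      have := Finset.card_filter_add_card_filter_not (s := S) St
      exact_mod_cast this.symm
    rw [hcard]
    set Z : ℝ := (2 : ℝ) ^ ((25 / 23 : ℝ) * n) with hZ
    have hZ0 : 0 < Z := by positivity
    have e1 : (2 : ℝ) ^ (n + J) ≤ Z := pow_div500 n
    have e2 : (2 : ℝ) ^ (-(20 / 3 : ℝ) * J) * (2 : ℝ) ^ ((5 / 3 : ℝ) * n)
      ≤ (2 : ℝ) ^ (20 / 3 : ℝ) * Z := pow_far500 n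
    have e3 : 1 + ((n : ℝ) + J) / 8 ^ J ≤ 14 := frac500 n
    have e4 : (2 : ℝ) ^ n ≤ Z := by
      refine le_trans ?_ e1
      exact pow_le_pow_right₀ (by norm_num) (by omega)
    have hDA : D ≤ |T| + D := by linarith [abs_nonneg T]
    have hM : 0 ≤ |T| + D := hD.trans hDA
    set M : ℝ := |T| + D with hMdef
    have e5 : C₁ * D * (2 ^ (n + J) * (1 + (n + J) / 8 ^ J)) ≤ C₁ * M * (Z * 14) := by
      have h3 : (0 : ℝ) ≤ 1 + (n + J) / 8 ^ J := by positivity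
      gcongr
    have e6 : C₂ * M * (2 ^ n + (2 : ℝ) ^ (-(20 / 3 : ℝ) * J) * (2 : ℝ) ^ ((5 / 3 : ℝ) * n))
        ≤ C₂ * M * (Z + (2 : ℝ) ^ (20 / 3 : ℝ) * Z) := by
      gcongr
    have e7 : C₁ * M * (Z * 14) + C₂ * M * (Z + (2 : ℝ) ^ (20 / 3 : ℝ) * Z) = A * M * Z := by
      rw [hA]
      ring
    linarith
  -- the conclusion
  refine ⟨A * (2 : ℝ) ^ ((25 / 23 : ℝ) * N₁) * (2 : ℝ) ^ (25 / 23 : ℝ), by positivity, ?_⟩
  intro T D G u p hu r hr hr1 S hS hz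
  have hD := turb_D hu
  have hM : 0 ≤ |T| + D := by linarith [abs_nonneg T]
  obtain ⟨n, hn1, hn2⟩ : ∃ n : ℕ, rr n ≤ r ∧ r < 2 * rr n := by
    obtain ⟨n, h3, h4⟩ := exists_nat_pow_near_of_lt_one hr hr1 (show (0 : ℝ) < 1 / 2 by norm_num)
      (show (1 / 2 : ℝ) < 1 by norm_num)
    rcases h4.lt_or_eq with h5 | h5
    · refine ⟨n + 1, h3.le, ?_⟩
      have : 2 * rr (n + 1) = rr n := by unfold rr; ring
      rw [this]
      exact h5
    · refine ⟨n, h5.ge, ?_⟩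
      have h6 := rr_pos500 n
      rw [h5]
      change rr n < 2 * rr n
      linarith
  have hle : rr (max n N₁) ≤ r := by
    refine le_trans ?_ hn1
    exact pow_le_pow_of_le_one (by norm_num) (by norm_num) (le_max_left _ _)
  have hle2 : rr (max n N₁) ^ 2 ≤ r ^ 2 := pow_le_pow_left₀ (rr_pos500 _).le hle 2
  have hmax : Sep (rr (max n N₁)) S := sep_le500 hS (rr_pos500 _).le hle
  have h3 := main T D G u p hu (max n N₁) (le_max_right _ _) S hmax (by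
    intro z hzS
    obtain ⟨h6, h7, h8, h9⟩ := hz z hzS
    exact ⟨by linarith, by linarith, h8, h9⟩)
  refine h3.trans ?_
  have h4 : (2 : ℝ) ^ ((25 / 23 : ℝ) * (max n N₁ : ℕ))
      ≤ (2 : ℝ) ^ ((25 / 23 : ℝ) * N₁) * (2 : ℝ) ^ ((25 / 23 : ℝ) * n) := by
    rw [← Real.rpow_add (by norm_num)]
    apply Real.rpow_le_rpow_of_exponent_le (by norm_num)
    rcases le_total n N₁ with h | h
    · rw [max_eq_right h]
      have : (0 : ℝ) ≤ n := Nat.cast_nonneg n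
      linarith
    · rw [max_eq_left h]
      have : (0 : ℝ) ≤ N₁ := Nat.cast_nonneg N₁
      linarith
  have h5 : (2 : ℝ) ^ ((25 / 23 : ℝ) * n) ≤ (2 : ℝ) ^ (25 / 23 : ℝ) * r ^ (-(25 / 23) : ℝ) := by
    have h6 : (2 : ℝ) ^ n ≤ 2 / r := by
      rw [← rr_inv500, le_div_iff₀ hr, inv_mul_le_iff₀ (rr_pos500 n)]
      linarith
    have h7 : (2 : ℝ) ^ ((25 / 23 : ℝ) * n) = ((2 : ℝ) ^ n) ^ (25 / 23 : ℝ) := by
      rw [mul_comm, Real.rpow_mul (by norm_num), Real.rpow_natCast]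
    rw [h7, Real.rpow_neg hr.le, ← div_eq_mul_inv, ← Real.div_rpow (by norm_num) hr.le]
    exact Real.rpow_le_rpow (by positivity) h6 (by norm_num)
  calc A * (|T| + D) * (2 : ℝ) ^ ((25 / 23 : ℝ) * (max n N₁ : ℕ))
      ≤ A * (|T| + D) *
        ((2 : ℝ) ^ ((25 / 23 : ℝ) * N₁) * ((2 : ℝ) ^ (25 / 23 : ℝ) * r ^ (-(25 / 23) : ℝ))) := by
        refine mul_le_mul_of_nonneg_left (h4.trans ?_) (mul_nonneg hA0.le hM)
        exact mul_le_mul_of_nonneg_left h5 (by positivity)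
    _ = _ := by ring

end Pool.Agent.Y655.NS
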